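import Pool.Agent.helper69.SN.SpecB

/-!
Row mMOC of the project sn (MP_d2d7b9): Hessians of mollifications depend continuously on the function.
-/

open scoped Pointwise ContDiff Convolution
open MeasureTheory Set Filter Topology

set_option linter.unusedVariables false

namespace Pool.Agent.helper69.SN

open Pool.Agent.helper83.SC

/-- Differentiation of a convolution falls on the smooth factor. -/
theorem MOC_pd {m : ℕ} (ψ f : E m → ℝ) (hψ : ContDiff ℝ 1 ψ) (hc : HasCompactSupport ψ)
    (hf : Continuous f) (i : Fin m) :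
    pd i (fun x => ∫ t, ψ t * f (x - t)) = fun x => ∫ t, pd i ψ t * f (x - t) := by
  funext x
  have h1 : (fun x => ∫ t, ψ t * f (x - t))
      = f ⋆[(ContinuousLinearMap.mul ℝ ℝ).flip, volume] ψ := by
    rw [convolution_flip]
    rfl
  have h2 := hc.hasFDerivAt_convolution_right (ContinuousLinearMap.mul ℝ ℝ).flip
    (hf.locallyIntegrable (μ := volume)) hψ x
  have h3 : fderiv ℝ (fun x => ∫ t, ψ t * f (x - t)) x (e i)
      = ∫ t, pd i ψ t * f (x - t) := by
    rw [h1, h2.fderiv, convolution_precompR_apply (ContinuousLinearMap.mul ℝ ℝ).flip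
      (hf.locallyIntegrable (μ := volume)) (hc.fderiv (𝕜 := ℝ)) (hψ.continuous_fderiv one_ne_zero),
      convolution_flip]
    rfl
  exact h3

theorem MOC_pd_contDiff {m : ℕ} (ψ : E m → ℝ) (hψ : ContDiff ℝ ∞ ψ) (i : Fin m) :
    ContDiff ℝ ∞ (pd i ψ) := by
  have h1 : ContDiff ℝ ∞ (fderiv ℝ ψ) := hψ.fderiv_right (by exact_mod_cast le_top)
  exact h1.clm_apply contDiff_const

theorem MOC_pd_support {m : ℕ} (ψ : E m → ℝ) (i : Fin m) : tsupport (pd i ψ) ⊆ tsupport ψ := by
  refine closure_minimal ?_ (isClosed_tsupport ψ)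
  intro x hx
  apply support_fderiv_subset ℝ
  intro h
  apply hx
  simp [pd, h]

theorem MOC_pd_compact {m : ℕ} (ψ : E m → ℝ) (hc : HasCompactSupport ψ) (i : Fin m) :
    HasCompactSupport (pd i ψ) :=
  hc.of_isClosed_subset (isClosed_tsupport _) (MOC_pd_support ψ i)

/-- The Hessian of a mollification. -/
theorem MOC_hess {m : ℕ} (φ : ContDiffBump (0 : E m)) (f : E m → ℝ) (hf : Continuous f) (x : E m)
    (i j : Fin m) :
    hess (mol φ f) x i j = ∫ t, pd i (pd j (φ.normed volume)) t * f (x - t) := by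
  have hs : ContDiff ℝ ∞ (φ.normed (volume : Measure (E m))) := φ.contDiff_normed
  have hcs : HasCompactSupport (φ.normed (volume : Measure (E m))) := φ.hasCompactSupport_normed
  have h1 : pd j (mol φ f) = fun x => ∫ t, pd j (φ.normed volume) t * f (x - t) :=
    MOC_pd _ f (hs.of_le (by exact_mod_cast le_top)) hcs hf j
  have h2 := MOC_pd (pd j (φ.normed volume)) f
    ((MOC_pd_contDiff _ hs j).of_le (by exact_mod_cast le_top)) (MOC_pd_compact _ hcs j) hf i
  show pd i (pd j (mol φ f)) x = _
  rw [h1, h2]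

theorem mMOC : mMOC_stmt := by
  intro m φ f g hf hg x hlim
  have hs : ContDiff ℝ ∞ (φ.normed (volume : Measure (E m))) := φ.contDiff_normed
  have hcs : HasCompactSupport (φ.normed (volume : Measure (E m))) := φ.hasCompactSupport_normed
  refine tendsto_pi_nhds.mpr fun i => tendsto_pi_nhds.mpr fun j => ?_
  set ψ : E m → ℝ := pd i (pd j (φ.normed volume)) with hψ
  have hψc : Continuous ψ := (MOC_pd_contDiff _ (MOC_pd_contDiff _ hs j) i).continuous
  have hψs : HasCompactSupport ψ := MOC_pd_compact _ (MOC_pd_compact _ hcs j) i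
  have hψt : ∀ t, ψ t ≠ 0 → ‖t‖ ≤ φ.rOut := by
    intro t ht
    have h1 : t ∈ tsupport ψ := subset_tsupport ψ ht
    have h2 := MOC_pd_support _ j (MOC_pd_support _ i h1)
    rw [φ.tsupport_normed_eq, mem_closedBall_zero_iff] at h2
    exact h2
  have hint : Integrable (fun t => |ψ t|) := (hψc.integrable_of_hasCompactSupport hψs).abs
  set I : ℝ := ∫ t, |ψ t| with hI
  have hI0 : 0 ≤ I := integral_nonneg fun t => abs_nonneg _
  have hprod : ∀ u : E m → ℝ, Continuous u → Integrable (fun t => ψ t * u (x - t)) := by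
    intro u hu
    exact (hψc.mul (hu.comp (continuous_const.sub continuous_id))).integrable_of_hasCompactSupport
      hψs.mul_right
  rw [Metric.tendsto_atTop]
  intro ε hε
  obtain ⟨k₀, hk₀⟩ := hlim (ε / (2 * (I + 1))) (by positivity)
  refine ⟨k₀, fun k hk => ?_⟩
  rw [MOC_hess φ (g k) (hg k), MOC_hess φ f hf, Real.dist_eq,
    ← integral_sub (hprod (g k) (hg k)) (hprod f hf)]
  have h3 : |∫ t, (ψ t * g k (x - t) - ψ t * f (x - t))| ≤ ∫ t, |ψ t| * (ε / (2 * (I + 1))) := by
    rw [← Real.norm_eq_abs]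
    refine norm_integral_le_of_norm_le (hint.mul_const _) (Eventually.of_forall fun t => ?_)
    rw [← mul_sub, norm_mul, Real.norm_eq_abs, Real.norm_eq_abs]
    by_cases ht : ψ t = 0
    · simp [ht]
    · refine mul_le_mul_of_nonneg_left (hk₀ k hk (x - t) ?_) (abs_nonneg _)
      rw [sub_sub_cancel_left, norm_neg]
      exact hψt t ht
  rw [integral_mul_const] at h3
  refine lt_of_le_of_lt h3 ?_
  rw [← hI, mul_div_assoc', div_lt_iff₀ (by positivity)]
  nlinarith

end Pool.Agent.helper69.SN
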