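import Pool.Agent.helper69.SN.SpecA
import Pool.Agent.helper35.SC.LA2

/-!
Row aSML of the project sn (MP_d2d7b9): near the boundary of the cone `Ph` is small.
-/

open scoped Pointwise ContDiff
open MeasureTheory Set Filter Topology

set_option linter.unusedVariables false

namespace Pool.Agent.helper69.SN

open Pool.Agent.helper83.SC

/-- Mixed discriminants of matrices between `-Y j` and `Y j`. -/
theorem SML_abs {m : ℕ} (X Y : Fin m → Mat m) (h1 : ∀ j, (Y j - X j).PosSemidef)
    (h2 : ∀ j, (Y j + X j).PosSemidef) : |mD X| ≤ mD Y := by
  have hY : ∀ j, (Y j).PosSemidef := by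
    intro j
    have h3 := ((h1 j).add (h2 j)).smul (show (0 : ℝ) ≤ 1 / 2 by norm_num)
    have h4 : (1 / 2 : ℝ) • (Y j - X j + (Y j + X j)) = Y j := by
      ext a b
      simp only [Matrix.smul_apply, Matrix.add_apply, Matrix.sub_apply, smul_eq_mul]
      ring
    rwa [h4] at h3
  have key : ∀ S : Finset (Fin m), ∀ Z : Fin m → Mat m, (∀ j, (Z j).PosSemidef) →
      |mD (fun j => if j ∈ S then X j else Z j)| ≤ mD (fun j => if j ∈ S then Y j else Z j) := by
    intro S
    induction S using Finset.induction_on with
    | empty =>
      intro Z hZ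
      simp only [Finset.notMem_empty, if_false]
      rw [abs_of_nonneg (mD_nonneg_of hZ)]
    | insert a S ha ih =>
      intro Z hZ
      have e1 : ∀ V W : Fin m → Mat m, ∀ U : Mat m,
          (fun j => if j ∈ insert a S then V j else W j)
            = Function.update (fun j => if j ∈ S then V j else W j) a (V a) := by
        intro V W U
        funext j
        by_cases hj : j = a
        · subst hj
          simp
        · rw [Function.update_of_ne hj]
          simp [Finset.mem_insert, hj]
      have e2 : ∀ V : Fin m → Mat m, ∀ U : Mat m,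
          Function.update (fun j => if j ∈ S then V j else Z j) a U
            = (fun j => if j ∈ S then V j else Function.update Z a U j) := by
        intro V U
        funext j
        by_cases hj : j = a
        · subst hj
          simp [ha]
        · rw [Function.update_of_ne hj, Function.update_of_ne hj]
      obtain ⟨P, hP⟩ : ∃ P : Mat m, P = (1 / 2 : ℝ) • (Y a + X a) := ⟨_, rfl⟩
      obtain ⟨Q, hQ⟩ : ∃ Q : Mat m, Q = (1 / 2 : ℝ) • (Y a - X a) := ⟨_, rfl⟩
      have hPp : P.PosSemidef := by
        rw [hP]
        exact (h2 a).smul (show (0 : ℝ) ≤ 1 / 2 by norm_num)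
      have hQp : Q.PosSemidef := by
        rw [hQ]
        exact (h1 a).smul (show (0 : ℝ) ≤ 1 / 2 by norm_num)
      have hX : X a = P + (-1 : ℝ) • Q := by
        ext i j
        simp only [hP, hQ, Matrix.smul_apply, Matrix.add_apply, Matrix.sub_apply, smul_eq_mul]
        ring
      have hYa : Y a = P + Q := by
        ext i j
        simp only [hP, hQ, Matrix.smul_apply, Matrix.add_apply, Matrix.sub_apply, smul_eq_mul]
        ring
      rw [e1 X Z 0, e1 Y Z 0, hX, hYa, mD_update_add_of, mD_update_add_of, mD_update_smul_of]
      rw [e2, e2, e2, e2]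
      have i1 := ih (Function.update Z a P) (by
        intro j
        by_cases hj : j = a
        · subst hj
          simpa using hPp
        · rw [Function.update_of_ne hj]
          exact hZ j)
      have i2 := ih (Function.update Z a Q) (by
        intro j
        by_cases hj : j = a
        · subst hj
          simpa using hQp
        · rw [Function.update_of_ne hj]
          exact hZ j)
      rw [abs_le] at i1 i2 ⊢
      constructor <;> linarith [i1.1, i1.2, i2.1, i2.2]
  have h5 := key Finset.univ Y hY
  simpa using h5

/-- Factors. -/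
theorem SML_smul {m : ℕ} (c : Fin m → ℝ) (A : Fin m → Mat m) :
    mD (fun j => c j • A j) = (∏ j, c j) * mD A := by
  unfold mD
  have h1 : ∀ σ : Equiv.Perm (Fin m),
      (Matrix.of fun i j => (c (σ i) • A (σ i)) i j).det
        = (∏ j, c j) * (Matrix.of fun i j => A (σ i) i j).det := by
    intro σ
    have h2 := Matrix.det_mul_column (fun i : Fin m => c (σ i)) (Matrix.of fun i j => A (σ i) i j)
    have h3 : (Matrix.of fun i j => (c (σ i) • A (σ i)) i j)
        = Matrix.of fun i j => (fun i : Fin m => c (σ i)) i * (Matrix.of fun i j => A (σ i) i j) i j := by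
      ext i j
      rfl
    rw [h3, h2, Equiv.prod_comp σ c]
  rw [Finset.sum_congr rfl fun σ _ => h1 σ, ← Finset.mul_sum]
  ring

/-- The place of the special matrix. -/
theorem SML_place {m : ℕ} (a b : Fin m) (X Z : Mat m) :
    mD (fun j => if j = a then X else Z) = mD (fun j => if j = b then X else Z) := by
  rw [← mD_perm_of (fun j => if j = a then X else Z) (Equiv.swap a b)]
  congr 1
  funext j
  by_cases hj : j = b
  · subst hj
    simp
  · by_cases hj2 : j = a
    · subst hj2
      rw [Equiv.swap_apply_left, if_neg (fun h => hj h.symm), if_neg hj]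
    · rw [Equiv.swap_apply_of_ne_of_ne hj2 hj]
      simp [hj, hj2]

theorem aSML_of (hHYP : aHYP_stmt) (hDER : aDER_stmt) : aSML_stmt := by
  intro m n b hb
  set K : ℝ := 1 + n * b + b with hK
  have hnb : 0 ≤ (n : ℝ) * b := mul_nonneg (Nat.cast_nonneg n) hb
  have hK1 : 1 ≤ K := by linarith
  refine ⟨∑ T : Finset (Fin n), (m.descFactorial (T.card + 1) : ℝ) * K ^ m,
    Finset.sum_nonneg fun T _ => by positivity, ?_⟩
  intro B hB hBb N hN c s hc0 hc1 hs hM hnM
  set M : Mat m := N - ∑ i, B i + c • (1 : Mat m) with hMdef
  have hMs : N - ∑ i, B i + (c - s) • (1 : Mat m) = M + (-s) • (1 : Mat m) := by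
    rw [hMdef, sub_smul, neg_smul]
    abel
  rw [hMs] at hnM
  have hsc : sc (fun _ => (1 : ℝ)) B = B := by
    funext i
    simp [sc]
  -- roots
  obtain ⟨rt, hrt⟩ := hHYP B hB (fun _ => 1) M 1 hM.1 Matrix.PosDef.one
  rw [hsc] at hrt
  simp only [Matrix.det_one, one_mul] at hrt
  have hle : ∀ l, rt l ≤ 0 := by
    intro l
    by_contra hl
    push Not at hl
    have h1 := hM.2 (rt l) hl.le
    rw [hrt (rt l), Finset.prod_eq_zero (Finset.mem_univ l) (sub_self _)] at h1
    exact absurd h1 (not_le.mpr (pow_pos hl m))
  have hex : ∃ l, -s < rt l := by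
    by_contra hno
    push Not at hno
    apply hnM
    refine ⟨hM.1.add (by simp [Matrix.IsSymm]), ?_⟩
    intro t ht
    have h2 : M + (-s) • (1 : Mat m) + t • (1 : Mat m) = M + (t - s) • (1 : Mat m) := by
      rw [sub_smul, neg_smul]
      abel
    rw [h2, hrt (t - s)]
    calc t ^ m = ∏ l : Fin m, t := by simp
      _ ≤ ∏ l : Fin m, (t - s - rt l) := by
        refine Finset.prod_le_prod (fun _ _ => ht) fun l _ => ?_
        linarith [hno l]
  obtain ⟨l₀, hl₀⟩ := hex
  -- the value and the derivative
  have hval : Ph B M = ∏ l, (0 - rt l) := by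
    have h3 := hrt 0
    rwa [zero_smul, add_zero] at h3
  have hder : dPh B 1 1 M = ∑ l, (∏ l' ∈ Finset.univ.erase l, (0 - rt l')) := by
    have h4 := (hDER B 1 M 0 0).1
    have h5 : (fun t : ℝ => dPh B 0 1 (M + t • (1 : Mat m))) = fun t : ℝ => ∏ l, (t - rt l) := by
      funext t
      rw [(hDER B 1 (M + t • (1 : Mat m)) 0 0).2, hrt t]
    rw [h5] at h4
    have h6 : HasDerivAt (fun t : ℝ => ∏ l, (t - rt l))
        (∑ l, (∏ l' ∈ Finset.univ.erase l, ((0 : ℝ) - rt l')) • (1 : ℝ)) 0 := by
      refine HasDerivAt.fun_finsetProd fun l _ => ?_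
      exact (hasDerivAt_id (0 : ℝ)).sub_const (rt l)
    have h7 := h4.unique h6
    rw [zero_smul, add_zero] at h7
    simpa using h7
  have hnn : ∀ l, 0 ≤ ∏ l' ∈ Finset.univ.erase l, (0 - rt l') := fun l =>
    Finset.prod_nonneg fun l' _ => by linarith [hle l']
  have hstep : Ph B M ≤ s * dPh B 1 1 M := by
    rw [hval, hder, ← Finset.mul_prod_erase Finset.univ _ (Finset.mem_univ l₀)]
    have h8 : ∏ l' ∈ Finset.univ.erase l₀, (0 - rt l')
        ≤ ∑ l, ∏ l' ∈ Finset.univ.erase l, (0 - rt l') :=
      Finset.single_le_sum (f := fun l => ∏ l' ∈ Finset.univ.erase l, (0 - rt l'))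
        (fun l _ => hnn l) (Finset.mem_univ l₀)
    exact mul_le_mul (by linarith) h8 (hnn l₀) hs.le
  -- the bound of the derivative
  set D : ℝ := mD (fun j : Fin m => if (j : ℕ) = 0 then (1 : Mat m) else N + 1) with hD
  have hN1 : (N + 1).PosSemidef := hN.add Matrix.PosSemidef.one
  have hD0 : 0 ≤ D := by
    refine mD_nonneg_of fun j => ?_
    by_cases hj : (j : ℕ) = 0
    · simp only [hj, if_true]
      exact Matrix.PosSemidef.one
    · simp only [hj, if_false]
      exact hN1
  have hsumB : (∑ i, B i).PosSemidef := Matrix.posSemidef_sum _ fun i _ => hB i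
  have hsumb : (((n : ℝ) * b) • (1 : Mat m) - ∑ i, B i).PosSemidef := by
    have h9 : (∑ i, (b • (1 : Mat m) - B i)).PosSemidef := Matrix.posSemidef_sum _ fun i _ => hBb i
    have h10 : ∑ i, (b • (1 : Mat m) - B i) = ((n : ℝ) * b) • (1 : Mat m) - ∑ i, B i := by
      rw [Finset.sum_sub_distrib, Finset.sum_const, Finset.card_univ, Fintype.card_fin,
        ← Nat.cast_smul_eq_nsmul ℝ, smul_smul]
    rwa [h10] at h9
  have hone : (1 : Mat m).PosSemidef := Matrix.PosSemidef.one
  have hterm : ∀ T : Finset (Fin n),
      (m.descFactorial (T.card + 1) : ℝ) * mD (slotA B T 1 1 M)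
        ≤ (m.descFactorial (T.card + 1) : ℝ) * K ^ m * D := by
    intro T
    rcases Nat.lt_or_ge m (T.card + 1) with hT | hT
    · rw [Nat.descFactorial_eq_zero_iff_lt.mpr hT]
      simp
    · rw [mul_assoc]
      refine mul_le_mul_of_nonneg_left ?_ (Nat.cast_nonneg _)
      have hm0 : 0 < m := by omega
      set a : Fin m := ⟨T.card, by omega⟩ with ha
      set z : Fin m := ⟨0, hm0⟩ with hz
      have h11 := SML_abs (slotA B T 1 1 M)
        (fun j => (if j = a then (1 : ℝ) else K) • (if j = a then (1 : Mat m) else N + 1)) (by
          intro j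
          by_cases hj : j = a
          · have h12 : slotA B T 1 1 M j = 1 := by
              subst hj
              simp [slotA, ha]
            rw [h12]
            simp only [hj, if_true, one_smul, sub_self]
            exact (Matrix.PosSemidef.zero : (0 : Mat m).PosSemidef)
          · simp only [hj, if_false]
            by_cases hj2 : (j : ℕ) < T.card
            · have h13 : slotA B T 1 1 M j = B (T.orderEmbOfFin rfl ⟨j, hj2⟩) := by
                simp [slotA, hj2]
              rw [h13]
              have h14 : K • (N + 1) - B (T.orderEmbOfFin rfl ⟨j, hj2⟩)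
                  = K • N + ((1 + n * b) • (1 : Mat m)
                    + (b • (1 : Mat m) - B (T.orderEmbOfFin rfl ⟨j, hj2⟩))) := by
                rw [hK, smul_add, add_smul (1 + (n : ℝ) * b) b (1 : Mat m)]
                abel
              rw [h14]
              exact (hN.smul (by linarith)).add ((hone.smul (by linarith)).add (hBb _))
            · have h15 : slotA B T 1 1 M j = M := by
                have h16 : ¬ ((j : ℕ) < T.card + 1) := by
                  intro h17
                  apply hj
                  apply Fin.ext
                  simp only [ha]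
                  omega
                simp [slotA, hj2, h16]
              rw [h15]
              have h18 : K • (N + 1) - M = (K - 1) • N + ((K - c) • (1 : Mat m) + ∑ i, B i) := by
                rw [hMdef, smul_add, sub_smul, sub_smul, one_smul]
                abel
              rw [h18]
              exact (hN.smul (by linarith)).add ((hone.smul (by linarith)).add hsumB))
        (by
          intro j
          by_cases hj : j = a
          · have h12 : slotA B T 1 1 M j = 1 := by
              subst hj
              simp [slotA, ha]
            rw [h12]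
            simp only [hj, if_true, one_smul]
            exact hone.add hone
          · simp only [hj, if_false]
            by_cases hj2 : (j : ℕ) < T.card
            · have h13 : slotA B T 1 1 M j = B (T.orderEmbOfFin rfl ⟨j, hj2⟩) := by
                simp [slotA, hj2]
              rw [h13]
              exact (hN1.smul (by linarith)).add (hB _)
            · have h15 : slotA B T 1 1 M j = M := by
                have h16 : ¬ ((j : ℕ) < T.card + 1) := by
                  intro h17
                  apply hj
                  apply Fin.ext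
                  simp only [ha]
                  omega
                simp [slotA, hj2, h16]
              rw [h15]
              have h18 : K • (N + 1) + M = (K + 1) • N + ((1 + b + c) • (1 : Mat m)
                  + (((n : ℝ) * b) • (1 : Mat m) - ∑ i, B i)) := by
                have h19 : K • (1 : Mat m) = (1 + b) • (1 : Mat m) + ((n : ℝ) * b) • (1 : Mat m) := by
                  rw [← add_smul]
                  congr 1
                  rw [hK]
                  ring
                rw [hMdef, smul_add, h19, add_smul K 1 N, one_smul, add_smul (1 + b) c (1 : Mat m)]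
                abel
              rw [h18]
              exact (hN.smul (by linarith)).add ((hone.smul (by linarith)).add hsumb))
      have h20 : mD (fun j => (if j = a then (1 : ℝ) else K) • (if j = a then (1 : Mat m) else N + 1))
          = (∏ j : Fin m, (if j = a then (1 : ℝ) else K)) * D := by
        rw [SML_smul (fun j => if j = a then (1 : ℝ) else K)
          (fun j => if j = a then (1 : Mat m) else N + 1), SML_place a z, hD]
        congr 2
        funext j
        have h21 : (j = z) ↔ ((j : ℕ) = 0) := by
          rw [hz, Fin.ext_iff]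
        simp only [h21]
      have h22 : (∏ j : Fin m, (if j = a then (1 : ℝ) else K)) ≤ K ^ m := by
        calc (∏ j : Fin m, (if j = a then (1 : ℝ) else K)) ≤ ∏ j : Fin m, K := by
              refine Finset.prod_le_prod (fun j _ => ?_) fun j _ => ?_
              · split_ifs <;> linarith
              · split_ifs <;> linarith
          _ = K ^ m := by simp
      calc mD (slotA B T 1 1 M) ≤ |mD (slotA B T 1 1 M)| := le_abs_self _
        _ ≤ _ := h11
        _ = _ := h20
        _ ≤ K ^ m * D := mul_le_mul_of_nonneg_right h22 hD0
  have hdle : dPh B 1 1 M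
      ≤ (∑ T : Finset (Fin n), (m.descFactorial (T.card + 1) : ℝ) * K ^ m) * D := by
    rw [dPh, Finset.sum_mul]
    exact Finset.sum_le_sum fun T _ => hterm T
  calc Ph B M ≤ s * dPh B 1 1 M := hstep
    _ ≤ s * ((∑ T : Finset (Fin n), (m.descFactorial (T.card + 1) : ℝ) * K ^ m) * D) :=
      mul_le_mul_of_nonneg_left hdle hs.le
    _ = _ := by ring

end Pool.Agent.helper69.SN
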