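import Pool.Agent.helper40.SN.SpecD
import Pool.Agent.helper53.SC.HS1

/-!
Row dGEO of the project sn (MP_d2d7b9): elementary facts on the projection, `Qf` and the tube.
-/

open scoped Pointwise ContDiff
open MeasureTheory Set Filter Topology Pool.Agent.helper83.SC Pool.Agent.helper69.SN

set_option linter.unusedVariables false

namespace Pool.Agent.helper40.SN

theorem dGEO : dGEO_stmt := by
  intro m D
  have hsub : ∀ x : E m, ‖x - pj D x‖ ≤ ‖x‖ := by
    intro x
    have h1 := D.starProjection_orthogonal_val x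
    have h2 := Dᗮ.norm_starProjection_apply_le x
    rw [h1] at h2
    exact h2
  have hle : ∀ x : E m, ‖pj D x‖ ≤ ‖x‖ := fun x => D.norm_starProjection_apply_le x
  have hmem : ∀ x : E m, pj D x ∈ D := fun x => D.starProjection_apply_mem x
  have hself : ∀ x ∈ D, pj D x = x := fun x hx => Submodule.starProjection_eq_self_iff.mpr hx
  have hz : ∀ x : E m, Qf D x = 0 → x ∈ D := by
    intro x hx
    have h1 : ‖x - pj D x‖ = 0 := by
      unfold Qf at hx
      exact pow_eq_zero_iff (two_ne_zero) |>.mp hx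
    have h2 : x - pj D x = 0 := norm_eq_zero.mp h1
    rw [sub_eq_zero.mp h2]
    exact hmem x
  have hcd : ContDiff ℝ ∞ (Qf D) := by
    have h1 : ContDiff ℝ ∞ (fun x : E m => x - pj D x) := contDiff_id.sub (pj D).contDiff
    exact h1.norm_sq ℝ
  have hcv : CV (Qf D) := by
    have h1 : ConvexOn ℝ univ (fun y : E m => ‖y‖ ^ 2) :=
      (convexOn_norm convex_univ).pow (fun y _ => norm_nonneg y) 2
    have h2 := h1.comp_linearMap
      ((LinearMap.id : E m →ₗ[ℝ] E m) - ((pj D : E m →L[ℝ] E m) : E m →ₗ[ℝ] E m))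
    exact h2
  refine ⟨⟨hcd, hcv⟩, fun x => hess_psd_of hcd hcv x, fun x => sq_nonneg _, ?_, ?_, ?_, ?_, ?_, ?_,
    hle, hself, hmem, hz⟩
  · intro x hx
    unfold Qf
    rw [hself x hx, sub_self, norm_zero]
    norm_num
  · intro x
    unfold Qf
    exact pow_le_pow_left₀ (norm_nonneg _) (hsub x) 2
  · intro r
    refine IsOpen.inter ?_ ?_
    · exact isOpen_lt (pj D).continuous.norm continuous_const
    · exact isOpen_lt (continuous_id.sub (pj D).continuous).norm continuous_const
  · intro r x hx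
    have h1 : x = pj D x + (x - pj D x) := by abel
    calc ‖x‖ = ‖pj D x + (x - pj D x)‖ := by rw [← h1]
      _ ≤ ‖pj D x‖ + ‖x - pj D x‖ := norm_add_le _ _
      _ < r + 1 := add_lt_add hx.1 hx.2
  · intro r ρ hr h1 x hx
    rw [mem_ball_zero_iff] at hx
    exact ⟨lt_of_le_of_lt (hle x) (hx.trans_le hr), lt_of_le_of_lt (hsub x) (hx.trans_le h1)⟩
  · intro v hv
    obtain ⟨ε, hε, h1⟩ := hv
    have h0 : Qf D 0 = 0 := by
      unfold Qf
      simp
    rw [zero_add, zero_sub, h0, mul_zero] at h1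
    have h2 : 0 ≤ Qf D (ε • v) := sq_nonneg _
    have h3 : 0 ≤ Qf D (-(ε • v)) := sq_nonneg _
    have h4 : Qf D (ε • v) = 0 := by linarith
    have h5 := hz _ h4
    exact (D.smul_mem_iff hε.ne').mp h5

end Pool.Agent.helper40.SN
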